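import Pool.Agent.Y80.KI.Defs
import Pool.Agent.Y80.KM.Asm
import Pool.Agent.Y779.KM.Prod
import Pool.Agent.Y815.KM.Chi
import Pool.Agent.Y93.KM.Group

set_option autoImplicit false

open scoped BigOperators

/-! Job KI-FULL of project KI (helper80): the coefficients of the full product are the Euler
characteristics of the Tits type Lie algebra. -/

namespace Pool.Agent.Y430.KI

open Pool.Agent.Y80.KM Pool.Agent.Y80.KI

universe u

theorem exists_finset {k L : Type u} [Field k] [LieRing L] [LieAlgebra k L] {N : ℕ} {I : Type u}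
    (H : HData k L N I) (N0 : ℕ) : ∃ F : Finset I, ∀ i, i ∈ F ↔ (H.γ i).1 ≤ N0 := by
  have h : {i | (H.γ i).1 ≤ N0}.Finite := by
    have : {i | (H.γ i).1 ≤ N0} ⊆ ⋃ n ∈ Finset.range (N0 + 1), {i | (H.γ i).1 = n} := by
      intro i hi
      simp only [Set.mem_iUnion, Finset.mem_range]
      exact ⟨(H.γ i).1, Nat.lt_succ_of_le hi, rfl⟩
    refine Set.Finite.subset ?_ this
    exact (Finset.range (N0 + 1)).finite_toSet.biUnion fun n _ => H.hfin n
  exact ⟨h.toFinset, fun i => by simp⟩

theorem ipw_nat {R : Type*} [CommRing R] (f : PowerSeries R) (n : ℕ) :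
    ipw f (n : ℤ) = f ^ n := by
  unfold ipw
  rw [if_pos (Int.natCast_nonneg n), Int.toNat_natCast]

theorem full_chi {k A : Type u} [Field k] [CharZero k] [NonUnitalNonAssocRing A] [Module k A]
    [IsScalarTower k A A] [SMulCommClass k A A] {N : ℕ} [NeZero N] {T : TitsData k A N}
    {𝒜 : ℕ → Submodule k A} (h : GrData T 𝒜) (N0 n : ℕ) (hn : n ≤ N0) (μ : Fin N → ℤ) :
    (PowerSeries.coeff n (fullp N
      (fun m => (((N - 1) * Module.finrank k (𝒜 m) + Module.finrank k (bcomp 𝒜 m) : ℕ) : ℤ))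
      (fun m => (Module.finrank k (𝒜 m) : ℤ)) N0)).coeff μ = (tData h).chi n μ := by
  classical
  obtain ⟨F, hF⟩ := exists_finset (tData h) N0
  set L : Finset (Fin N → ℤ) :=
    insert 0 (Finset.univ.image fun p : Rt N => (epsd p.1.1 p.1.2 : Fin N → ℤ)) with hLdef
  have hne : ∀ i j : Fin N, i ≠ j → (epsd i j : Fin N → ℤ) ≠ 0 :=
    fun i j hij h0 => hij (Pool.Agent.Y936.KM.epsd_eq_zero h0)
  have h1 : eprod F (fun i => ((tData h).γ i).1) (fun i => ((tData h).γ i).2) =
      fullp N (fun m => (((N - 1) * Module.finrank k (𝒜 m) + Module.finrank k (bcomp 𝒜 m) : ℕ) : ℤ))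
        (fun m => (Module.finrank k (𝒜 m) : ℤ)) N0 := by
    have h2 := Pool.Agent.Y93.KM.group_gen (tData h).γ F N0 (tData h).hpos hF L ?_
      (fun v => v) (fun m v => if v = 0 then
        (N - 1) * Module.finrank k (𝒜 m) + Module.finrank k (bcomp 𝒜 m)
        else Module.finrank k (𝒜 m)) ?_
    · rw [h2, fullp, fprod, ← Finset.prod_mul_distrib]
      refine Finset.prod_congr rfl fun m _ => ?_
      rw [hLdef, Finset.prod_insert, if_pos rfl, ipw_nat]
      · congr 1
        rw [Finset.prod_image]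
        · refine Finset.prod_congr rfl fun p _ => ?_
          rw [if_neg (hne _ _ p.2), ipw_nat]
          rfl
        · intro p _ q _ hpq
          have h3 := Pool.Agent.Y936.KM.epsd_inj p.2 hpq
          exact Subtype.ext (Prod.ext h3.1.symm h3.2.symm)
      · intro h0
        obtain ⟨p, _, hp⟩ := Finset.mem_image.1 h0
        exact hne _ _ p.2 hp
    · intro s
      rw [hLdef, Finset.mem_insert]
      rcases hγ_weight (T := T) (𝒜 := 𝒜) s with h0 | ⟨a, b, hab, h0⟩
      · exact Or.inl h0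
      · exact Or.inr (Finset.mem_image.2 ⟨⟨(a, b), hab⟩, Finset.mem_univ _, h0.symm⟩)
    · intro m v hv
      have h3 := card_hγ (T := T) (𝒜 := 𝒜) (m, v)
      rw [hLdef, Finset.mem_insert] at hv
      rcases hv with rfl | hv
      · rw [if_pos rfl]
        rw [Pool.Agent.Y936.KM.lcomp_finrank_zero T 𝒜 h.fin m] at h3
        exact h3
      · obtain ⟨p, _, rfl⟩ := Finset.mem_image.1 hv
        rw [if_neg (hne _ _ p.2)]
        rw [Pool.Agent.Y936.KM.lcomp_finrank_root T 𝒜 h.fin m _ _ p.2] at h3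
        exact h3
  rw [← h1, Pool.Agent.Y779.KM.eprod_coeff]
  exact Pool.Agent.Y815.KM.chi_eq (tData h) F N0 n hn hF (fun i => ((tData h).γ i).2) μ μ
    (fun S => Iff.rfl)

end Pool.Agent.Y430.KI
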