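import Pool.Agent.Y80.KI.Defs
import Pool.Agent.Y270.KM.Core
import Pool.Agent.Y924.KM.Euler

set_option autoImplicit false

open scoped BigOperators

/-! Job KI-GRADED of project KI (helper80): finite dimensional multiplicities of the trivial and of
the adjoint module in the homology imply that the Euler characteristics of all large degrees have
no trivial and no adjoint part. -/

namespace Pool.Agent.Y430.KI

open Pool.Agent.Y80.KM Pool.Agent.Y80.KI Pool.Agent.Y270.KM Pool.Agent.Y355.KM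

universe u

section lattice

variable {k V ι : Type*} [Field k] [AddCommGroup V] [Module k V]

/-- an independent family, sums which vanish -/
theorem eq_zero_of_sum {W : ι → Submodule k V} (hW : iSupIndep W) (s : Finset ι) (x : ι → V)
    (hx : ∀ i ∈ s, x i ∈ W i) (h : ∑ i ∈ s, x i = 0) : ∀ i ∈ s, x i = 0 := by
  classical
  intro i hi
  have h1 : x i ∈ ⨆ (j) (_ : j ≠ i), W j := by
    rw [← Finset.add_sum_erase _ _ hi] at h
    rw [eq_neg_of_add_eq_zero_left h]
    refine neg_mem (Submodule.sum_mem _ fun j hj => ?_)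
    exact Submodule.mem_iSup_of_mem j (Submodule.mem_iSup_of_mem (Finset.ne_of_mem_erase hj)
      (hx j (Finset.mem_of_mem_erase hj)))
  have h2 := (hW i).le_bot ⟨hx i hi, h1⟩
  rwa [Submodule.mem_bot] at h2

/-- the images in the quotient by a graded subspace are independent -/
theorem indep_quot {W F : ι → Submodule k V} (hW : iSupIndep W) (hF : ∀ i, F i ≤ W i) :
    iSupIndep fun i => (W i).map (⨆ j, F j).mkQ := by
  intro i
  rw [Submodule.disjoint_def]
  rintro _ ⟨w, hw, rfl⟩ h2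
  have h3 : (⨆ (j) (_ : j ≠ i), (W j).map (⨆ j, F j).mkQ) =
      (⨆ (j) (_ : j ≠ i), W j).map (⨆ j, F j).mkQ := by
    rw [Submodule.map_iSup]
    refine iSup_congr fun j => ?_
    rw [Submodule.map_iSup]
  rw [h3] at h2
  obtain ⟨w', hw', h4⟩ := h2
  rw [Submodule.mkQ_apply, Submodule.mkQ_apply, Submodule.Quotient.eq] at h4
  have h5 : (⨆ j, F j) ≤ F i ⊔ ⨆ (j) (_ : j ≠ i), F j := by
    refine iSup_le fun j => ?_
    by_cases h : j = i
    · subst h; exact le_sup_left
    · exact le_trans (le_iSup₂_of_le j h le_rfl) le_sup_right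
  obtain ⟨f, hf, f', hf', h6⟩ := Submodule.mem_sup.1 (h5 h4)
  have h7 : w + f ∈ ⨆ (j) (_ : j ≠ i), W j := by
    have : w + f = w' - f' := by
      have h8 : f + f' = w' - w := h6
      rw [eq_sub_iff_add_eq, add_assoc, h8]
      abel
    rw [this]
    exact sub_mem hw' ((iSup₂_mono fun j _ => hF j) hf')
  have h9 := (hW i).le_bot ⟨add_mem hw (hF i hf), h7⟩
  rw [Submodule.mem_bot] at h9
  rw [Submodule.mkQ_apply, Submodule.Quotient.mk_eq_zero]
  have h10 : w = -f := eq_neg_of_add_eq_zero_left h9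
  rw [h10]
  exact neg_mem (Submodule.mem_iSup_of_mem i hf)

end lattice

section data

variable {k L : Type u} [Field k] [LieRing L] [LieAlgebra k L] {N : ℕ} {I : Type u}
  (H : HData k L N I)

/-- the classes of the cycles of degree `n` -/
def hcl (p n : ℕ) : Set (LieHomology k L p) :=
  {m | ∃ (z : ExteriorAlgebra k L) (hz : z ∈ ZZ H p n),
    m = Submodule.Quotient.mk (⟨z, ZZ_le_cyc H p n hz⟩ : cyc k L p)}

/-- homology classes as elements of the quotient of the exterior algebra -/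
noncomputable def emb (p : ℕ) :
    LieHomology k L p →ₗ[k] ExteriorAlgebra k L ⧸ bdy k L p :=
  Submodule.mapQ _ _ (cyc k L p).subtype (fun _ h => h)

theorem emb_inj (p : ℕ) : Function.Injective (emb (k := k) (L := L) p) := by
  rw [← LinearMap.ker_eq_bot, LinearMap.ker_eq_bot']
  intro m hm
  obtain ⟨z, rfl⟩ := Submodule.Quotient.mk_surjective _ m
  have h1 : (Submodule.Quotient.mk (z : ExteriorAlgebra k L) :
      ExteriorAlgebra k L ⧸ bdy k L p) = 0 := hm
  rw [Submodule.Quotient.mk_eq_zero] at h1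
  rw [Submodule.Quotient.mk_eq_zero]
  exact h1

theorem bdy_eq (p : ℕ) : bdy k L p = ⨆ n, BB H p n := by
  rw [bdy, ← power_eq H, Submodule.map_iSup]
  rfl

theorem quot_indep (p : ℕ) :
    iSupIndep fun n : ℕ => (EV H p n).map (bdy k L p).mkQ := by
  have h := indep_quot (EV_indep H p) (F := fun n => BB H p n)
    (fun n => (BB_le_ZZ H p n).trans inf_le_left)
  rw [bdy_eq H p]
  exact h

theorem emb_mem (p n : ℕ) {m : LieHomology k L p} (hm : m ∈ hcl H p n) :
    emb p m ∈ (EV H p n).map (bdy k L p).mkQ := by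
  obtain ⟨z, hz, rfl⟩ := hm
  exact ⟨z, hz.1, rfl⟩

theorem finite_inv (p : ℕ) [FiniteDimensional k (hInv H p)] :
    {n | ∃ m ∈ hInv H p, m ∈ hcl H p n ∧ m ≠ 0}.Finite := by
  set S : Set ℕ := {n | ∃ m ∈ hInv H p, m ∈ hcl H p n ∧ m ≠ 0} with hS
  have hS' : ∀ n : S, ∃ m ∈ hInv H p, m ∈ hcl H p n ∧ m ≠ 0 := fun n => n.2
  choose v hv1 hv2 hv3 using hS'
  have hli : LinearIndependent k (fun n : S => (⟨v n, hv1 n⟩ : hInv H p)) := by
    rw [linearIndependent_iff']
    intro s g hg i hi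
    have h1 : ∑ n ∈ s, g n • v n = 0 := by
      have := congrArg Subtype.val hg
      simpa using this
    have h2 : ∑ n ∈ s, g n • emb p (v n) = 0 := by
      have := congrArg (emb p) h1
      rw [map_sum, map_zero] at this
      rw [← this]
      exact Finset.sum_congr rfl fun n _ => (map_smul _ _ _).symm
    have h3 := eq_zero_of_sum ((quot_indep H p).comp (f := fun n : S => (n : ℕ))
      Subtype.val_injective) s (fun n => g n • emb p (v n))
      (fun n _ => Submodule.smul_mem _ _ (emb_mem H p n (hv2 n))) h2 i hi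
    rcases smul_eq_zero.1 h3 with h | h
    · exact h
    · exact absurd (emb_inj p (by rw [h, map_zero])) (hv3 i)
  have := hli.finite
  exact Set.toFinite S

theorem finite_adj (p : ℕ) [FiniteDimensional k (hAdj H p)] :
    {n | ∃ f ∈ hAdj H p, (∀ Y, f Y ∈ hcl H p n) ∧ f ≠ 0}.Finite := by
  set S : Set ℕ := {n | ∃ f ∈ hAdj H p, (∀ Y, f Y ∈ hcl H p n) ∧ f ≠ 0} with hS
  have hS' : ∀ n : S, ∃ f ∈ hAdj H p, (∀ Y, f Y ∈ hcl H p n) ∧ f ≠ 0 := fun n => n.2
  choose v hv1 hv2 hv3 using hS'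
  have hli : LinearIndependent k (fun n : S => (⟨v n, hv1 n⟩ : hAdj H p)) := by
    refine (linearIndependent_iff' (R := k) (M := ↥(hAdj H p))).2 ?_
    intro s g hg i hi
    have h1 : ∑ n ∈ s, g n • v n = 0 := by
      have := congrArg Subtype.val hg
      simpa using this
    have hne := hv3 i
    obtain ⟨Y, hY⟩ : ∃ Y, v i Y ≠ 0 := by
      by_contra hcon
      push Not at hcon
      exact hne (LinearMap.ext fun Y => by rw [hcon Y, LinearMap.zero_apply])
    have h2 : ∑ n ∈ s, g n • emb p (v n Y) = 0 := by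
      have h4 := congrArg (emb p) (LinearMap.congr_fun h1 Y)
      rw [LinearMap.sum_apply, map_sum, LinearMap.zero_apply, map_zero] at h4
      rw [← h4]
      exact Finset.sum_congr rfl fun n _ => (map_smul _ _ _).symm
    have h3 := eq_zero_of_sum ((quot_indep H p).comp (f := fun n : S => (n : ℕ))
      Subtype.val_injective) s (fun n => g n • emb p (v n Y))
      (fun n _ => Submodule.smul_mem _ _ (emb_mem H p n (hv2 n Y))) h2 i hi
    rcases smul_eq_zero.1 h3 with h | h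
    · exact h
    · exact absurd (emb_inj p (by rw [h, map_zero])) hY
  have := hli.finite
  exact Set.toFinite S

theorem hinv (p n : ℕ) (hI : ∀ m ∈ hInv H p, m ∈ hcl H p n → m = 0)
    (z : ExteriorAlgebra k L) (hz : z ∈ ZZ H p n)
    (h : ∀ X, rho H X z ∈ BB H p n) : z ∈ BB H p n := by
  rw [← class_eq_zero H hz]
  refine hI _ ?_ ⟨z, hz, rfl⟩
  intro X _
  rw [hact_mk H p X (ZZ_le_cyc H p n hz) (ZZ_le_cyc H p n (rho_ZZ H p n X z hz)),
    class_eq_zero H (rho_ZZ H p n X z hz)]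
  exact h X

end data

section adj

variable {k L : Type u} [Field k] [CharZero k] [LieRing L] [LieAlgebra k L] {N : ℕ} {I : Type u}
  (H : HData k L N I)

theorem hadj [NeZero N] (p n : ℕ) (hI : ∀ m ∈ hInv H p, m ∈ hcl H p n → m = 0)
    (hA : ∀ f ∈ hAdj H p, (∀ Y, f Y ∈ hcl H p n) → f = 0)
    (φ : Matrix (Fin N) (Fin N) k →ₗ[k] ExteriorAlgebra k L)
    (hφ : ∀ Y, φ Y ∈ ZZ H p n)
    (he : ∀ X Y, rho H X (φ Y) - φ (X * Y - Y * X) ∈ BB H p n) (Y : Matrix (Fin N) (Fin N) k) :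
    φ Y ∈ BB H p n := by
  -- the identity matrix
  have h1 : φ 1 ∈ BB H p n := by
    refine hinv H p n hI _ (hφ 1) fun X => ?_
    have := he X 1
    rwa [mul_one, one_mul, sub_self, map_zero, sub_zero] at this
  have hf : fmap H p n φ hφ = 0 := by
    refine hA _ ?_ fun Z => ⟨φ Z.1, hφ Z.1, rfl⟩
    intro X Z
    rw [fmap, LinearMap.coe_mk, AddHom.coe_mk,
      hact_mk H p X.1 (ZZ_le_cyc H p n (hφ Z.1))
        (ZZ_le_cyc H p n (rho_ZZ H p n X.1 _ (hφ Z.1)))]
    rw [Submodule.Quotient.eq]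
    show φ (X.1 * Z.1 - Z.1 * X.1) - rho H X.1 (φ Z.1) ∈ bdy k L p
    rw [← neg_sub]
    exact neg_mem (BB_le_bdy H p n (he X.1 Z.1))
  have hall : ∀ Z : Matrix (Fin N) (Fin N) k, Z.trace = 0 → φ Z ∈ BB H p n := by
    intro Z hZ
    have h2 : fmap H p n φ hφ ⟨Z, hZ⟩ = 0 := by rw [hf, LinearMap.zero_apply]
    exact (class_eq_zero H (hφ Z)).1 h2
  have hN : (N : k) ≠ 0 := Nat.cast_ne_zero.2 (NeZero.ne N)
  have hY : Y = ((Y.trace / N) • (1 : Matrix (Fin N) (Fin N) k)) +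
      (Y - (Y.trace / N) • (1 : Matrix (Fin N) (Fin N) k)) := by abel
  rw [hY, map_add, map_smul]
  refine add_mem (Submodule.smul_mem _ _ h1) (hall _ ?_)
  rw [Matrix.trace_sub, Matrix.trace_smul, Matrix.trace_one, Fintype.card_fin, smul_eq_mul,
    div_mul_cancel₀ _ hN, sub_self]

end adj

theorem core {k L : Type u} [Field k] [CharZero k] [LieRing L] [LieAlgebra k L] {N : ℕ}
    [NeZero N] {I : Type u} (H : HData k L N I) (hR : Pool.Agent.Y80.KM.RepN k N)
    (p n : ℕ) (hp : 1 ≤ p) (hI : ∀ m ∈ hInv H p, m ∈ hcl H p n → m = 0)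
    (hA : ∀ f ∈ hAdj H p, (∀ Y, f Y ∈ hcl H p n) → f = 0) :
    e0 N (H.hm p n) = 0 ∧ egl N (H.hm p n) = 0 := by
  have hG : Pool.Agent.Y355.KM.GlHom k N := by
    intro M _ _ _ ρ hρ h1 htop hadj'
    exact Pool.Agent.Y76.KM.glhom hR ρ hρ h1 htop hadj'
  have := EV_finite H p n
  have : FiniteDimensional k ↥(ZZ H p n) :=
    Submodule.finiteDimensional_of_le (inf_le_left : ZZ H p n ≤ EV H p n)
  have h := subq_of hG hR (rho H) (rho_bracket H) (ZZ H p n) (BB H p n) (BB_le_ZZ H p n)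
    (rho_ZZ H p n) (rho_BB H p n) (fun z _ => rho_one H z) (ZZ_le H p n hp)
    (hinv H p n hI) (hadj H p n hI hA)
  have he : (fun μ : Fin N → ℤ => (Module.finrank k ↥(ZZ H p n ⊓ wsp (rho H) μ) : ℤ) -
      Module.finrank k ↥(BB H p n ⊓ wsp (rho H) μ)) = H.hm p n := by
    funext μ
    rw [HData.hm, ZZ_inf_wsp, BB_inf_wsp]
  rwa [he] at h

/-! ### `e0` and `egl` are linear -/

theorem e0_lin {ι : Type*} (N : ℕ) (s : Finset ι) (c : ι → ℤ) (f : ι → (Fin N → ℤ) → ℤ) :
    e0 N (fun μ => ∑ p ∈ s, c p * f p μ) = ∑ p ∈ s, c p * e0 N (f p) := by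
  unfold e0
  simp only [Finset.mul_sum]
  rw [Finset.sum_comm]
  refine Finset.sum_congr rfl fun p _ => Finset.sum_congr rfl fun σ _ => ?_
  ring

theorem egl_lin {ι : Type*} (N : ℕ) (s : Finset ι) (c : ι → ℤ) (f : ι → (Fin N → ℤ) → ℤ) :
    egl N (fun μ => ∑ p ∈ s, c p * f p μ) = ∑ p ∈ s, c p * egl N (f p) := by
  unfold egl
  simp only [Finset.mul_sum]
  rw [Finset.sum_comm' (t' := Finset.univ) (s' := fun _ => s) (by simp)]
  refine Finset.sum_congr rfl fun i _ => ?_
  rw [Finset.sum_comm]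
  refine Finset.sum_congr rfl fun j _ => ?_
  exact e0_lin N s c fun p μ => f p (μ + epsd i j)

theorem e0_zero (N : ℕ) : e0 N (fun _ => 0) = 0 := by
  simp [e0]

theorem egl_zero (N : ℕ) : egl N (fun _ => 0) = 0 := by
  simp [egl, e0]

theorem graded {k L : Type u} [Field k] [CharZero k] [LieRing L] [LieAlgebra k L] {N : ℕ}
    [NeZero N] (hN : 2 ≤ N) {I : Type u} (H : HData k L N I) (hR : Pool.Agent.Y80.KM.RepN k N)
    (hgen : ∀ n, 2 ≤ n → ∀ μ, hsp H.b H.γ (n, μ) ≤ Submodule.span k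
      {x | ∃ g g' : ℕ × (Fin N → ℤ), g + g' = (n, μ) ∧ ∃ y ∈ hsp H.b H.γ g,
        ∃ z ∈ hsp H.b H.γ g', x = ⁅y, z⁆})
    (h1 : ∀ p, 2 ≤ p → FiniteDimensional k (hInv H p) ∧ FiniteDimensional k (hAdj H p))
    (h2 : ∃ p₀, ∀ p, p₀ ≤ p → hInv H p = ⊥ ∧ hAdj H p = ⊥) :
    ∃ n₀, ∀ n, n₀ ≤ n → e0 N (H.chi n) = 0 ∧ egl N (H.chi n) = 0 := by
  obtain ⟨p₀, hp₀⟩ := h2
  -- the exceptional degrees
  have hfin : ∀ p, 2 ≤ p → ∃ m : ℕ, ∀ n, m ≤ n →
      (∀ x ∈ hInv H p, x ∈ hcl H p n → x = 0) ∧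
      (∀ f ∈ hAdj H p, (∀ Y, f Y ∈ hcl H p n) → f = 0) := by
    intro p hp
    have i1 := (h1 p hp).1
    have i2 := (h1 p hp).2
    obtain ⟨a, ha⟩ := (finite_inv H p).bddAbove
    obtain ⟨b, hb⟩ := (finite_adj H p).bddAbove
    refine ⟨max a b + 1, fun n hn => ⟨fun x hx hxn => ?_, fun f hf hfn => ?_⟩⟩
    · by_contra hne
      have := ha (show n ∈ {n | ∃ m ∈ hInv H p, m ∈ hcl H p n ∧ m ≠ 0} from ⟨x, hx, hxn, hne⟩)
      have := le_max_left a b
      omega
    · by_contra hne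
      have := hb (show n ∈ {n | ∃ f ∈ hAdj H p, (∀ Y, f Y ∈ hcl H p n) ∧ f ≠ 0} from
        ⟨f, hf, hfn, hne⟩)
      have := le_max_right a b
      omega
  choose! m hm using hfin
  refine ⟨max 2 ((Finset.range p₀).sup m), fun n hn => ?_⟩
  have hn2 : 2 ≤ n := (le_max_left _ _).trans hn
  have hnm : ∀ p, p < p₀ → m p ≤ n := fun p hp =>
    (Finset.le_sup (f := m) (Finset.mem_range.2 hp)).trans ((le_max_right _ _).trans hn)
  have h4 : H.chi n = fun μ => ∑ p ∈ Finset.range (n + 1), (-1) ^ p * H.hm p n μ :=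
    funext fun μ => Pool.Agent.Y924.KM.euler H n μ
  have h5 : ∀ p ∈ Finset.range (n + 1), e0 N (H.hm p n) = 0 ∧ egl N (H.hm p n) = 0 := by
    intro p _
    rcases Nat.lt_or_ge p 2 with h | h
    · have : H.hm p n = fun _ => 0 := by
        funext μ
        interval_cases p
        · exact Pool.Agent.Y924.KM.hm_zero H n (by omega) μ
        · exact Pool.Agent.Y924.KM.hm_one H n μ (hgen n hn2 μ)
      rw [this]
      exact ⟨e0_zero N, egl_zero N⟩
    · rcases Nat.lt_or_ge p p₀ with h' | h'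
      · obtain ⟨h6, h7⟩ := hm p h n (hnm p h')
        exact core H hR p n (by omega) h6 h7
      · obtain ⟨h6, h7⟩ := hp₀ p h'
        refine core H hR p n (by omega) (fun x hx _ => ?_) (fun f hf _ => ?_)
        · rwa [h6, Submodule.mem_bot] at hx
        · rwa [h7, Submodule.mem_bot] at hf
  rw [h4, e0_lin, egl_lin]
  constructor
  · apply Finset.sum_eq_zero
    intro p hp
    rw [(h5 p hp).1, mul_zero]
  · apply Finset.sum_eq_zero
    intro p hp
    rw [(h5 p hp).2, mul_zero]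

end Pool.Agent.Y430.KI
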